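import Mathlib
import Pool.Agent.H19.OM.Stm2

set_option autoImplicit false

/-!
# Project OM, module ERR: the errors of (INT) tend to zero
-/

namespace Pool.Agent.H22.OM

open Finset MeasureTheory ProbabilityTheory Filter Topology
open scoped NNReal
open Pool.Agent.H19.OM

theorem lim_ll : Tendsto (fun y : ℕ => Real.log (Real.log y)) atTop atTop :=
  Real.tendsto_log_atTop.comp (Real.tendsto_log_atTop.comp tendsto_natCast_atTop_atTop)

/-- the size of the modulus against `(9 / 8) ^ y` -/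
theorem ev_mod : ∀ᶠ y : ℕ in atTop,
    ((⌊Real.log (Real.log y) ^ 3⌋₊ : ℝ) ^
      (⌊Real.sqrt (Real.log (Real.log y)) / 2⌋₊ * ⌊Real.log (Real.log y) ^ 3⌋₊) ≤ (9 / 8 : ℝ) ^ y) ∧
    Real.log (Real.log y) ^ 7 ≤ y := by
  have h1 : ∀ᶠ t : ℝ in atTop, t ^ 7 * Real.exp (-t) < 1 :=
    (Real.tendsto_pow_mul_exp_neg_atTop_nhds_zero 7).eventually (gt_mem_nhds one_pos)
  have h2 : ∀ᶠ x : ℝ in atTop, ‖Real.log x‖ ≤ Real.log (9 / 8) * ‖id x‖ :=
    Real.isLittleO_log_id_atTop.bound (Real.log_pos (by norm_num))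
  filter_upwards [lim_ll.eventually h1, tendsto_natCast_atTop_atTop.eventually h2,
    lim_ll.eventually_ge_atTop 1,
    (Real.tendsto_log_atTop.comp tendsto_natCast_atTop_atTop).eventually_ge_atTop 1] with
    y k1 k2 k3 k4
  have k4' : (1 : ℝ) ≤ Real.log y := k4
  obtain ⟨l, hl⟩ : ∃ l, l = Real.log (Real.log y) := ⟨_, rfl⟩
  rw [← hl] at k1 k3 ⊢
  have h3 : Real.exp l = Real.log y := by
    rw [hl, Real.exp_log (by linarith)]
  have h4 : l ^ 7 ≤ Real.log y := by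
    rw [Real.exp_neg, ← div_eq_mul_inv, div_lt_one (Real.exp_pos _), h3] at k1
    exact k1.le
  have h5 : Real.log y ≤ Real.log (9 / 8) * y := by
    rw [Real.norm_of_nonneg (by linarith), id, Real.norm_of_nonneg (Nat.cast_nonneg y)] at k2
    exact k2
  have h6 : Real.log (9 / 8 : ℝ) ≤ 1 := by
    have := Real.log_le_sub_one_of_pos (show (0 : ℝ) < 9 / 8 by norm_num)
    linarith
  have h7 : l ^ 7 ≤ y := by
    have h8 : Real.log (9 / 8) * y ≤ 1 * y :=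
      mul_le_mul_of_nonneg_right h6 (Nat.cast_nonneg y)
    linarith
  refine ⟨?_, h7⟩
  have h9 : (1 : ℝ) ≤ l ^ 3 := one_le_pow₀ k3
  have hM1 : 1 ≤ ⌊l ^ 3⌋₊ := Nat.le_floor (by exact_mod_cast h9)
  have hM1' : (1 : ℝ) ≤ (⌊l ^ 3⌋₊ : ℝ) := by exact_mod_cast hM1
  have hM2 : (⌊l ^ 3⌋₊ : ℝ) ≤ l ^ 3 := Nat.floor_le (by linarith)
  have hL2 : (⌊Real.sqrt l / 2⌋₊ : ℝ) ≤ l := by
    have h10 : (⌊Real.sqrt l / 2⌋₊ : ℝ) ≤ Real.sqrt l / 2 := Nat.floor_le (by positivity)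
    have h11 : Real.sqrt l ≤ l := by
      rw [Real.sqrt_le_left (by linarith)]
      nlinarith
    have h12 := Real.sqrt_nonneg l
    linarith
  rw [← Real.log_le_log_iff (by positivity) (by positivity), Real.log_pow, Real.log_pow]
  push_cast
  have h13 : Real.log (⌊l ^ 3⌋₊ : ℝ) ≤ l ^ 3 := (Real.log_le_self (by linarith)).trans hM2
  have h14 : 0 ≤ Real.log (⌊l ^ 3⌋₊ : ℝ) := Real.log_nonneg hM1'
  calc (⌊Real.sqrt l / 2⌋₊ : ℝ) * (⌊l ^ 3⌋₊ : ℝ) * Real.log (⌊l ^ 3⌋₊ : ℝ)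
      ≤ l * l ^ 3 * l ^ 3 := by
        gcongr
    _ = l ^ 7 := by ring
    _ ≤ y * Real.log (9 / 8) := by linarith

/-- **Module ERR.** -/
theorem t_ERR (hINT : S_INT) (hMO : S_MO) : S_ERR := by
  intro ε hε
  have hL : Tendsto (fun y : ℕ => ⌊Real.sqrt (Real.log (Real.log y)) / 2⌋₊) atTop atTop :=
    tendsto_nat_floor_atTop.comp
      ((Real.tendsto_sqrt_atTop.comp lim_ll).atTop_div_const (by norm_num))
  have hL1 : Tendsto (fun y : ℕ => ⌊Real.sqrt (Real.log (Real.log y)) / 2⌋₊ + 1) atTop atTop :=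
    (tendsto_add_atTop_nat 1).comp hL
  have e1 : ∀ᶠ y : ℕ in atTop,
      ((⌊Real.sqrt (Real.log (Real.log y)) / 2⌋₊ + 1 : ℕ) : ℝ) ^ 2 /
        2 ^ (⌊Real.sqrt (Real.log (Real.log y)) / 2⌋₊ + 1) < ε / 512 :=
    hL1.eventually ((tendsto_pow_const_div_const_pow_of_one_lt 2
      (show (1 : ℝ) < 2 by norm_num)).eventually (gt_mem_nhds (show 0 < ε / 512 by positivity)))
  have e3 : ∀ᶠ y : ℕ in atTop, (y : ℝ) ^ 2 / 5 ^ y < ε / 32 :=
    (tendsto_pow_const_div_const_pow_of_one_lt 2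
      (show (1 : ℝ) < 5 by norm_num)).eventually (gt_mem_nhds (show 0 < ε / 32 by positivity))
  have e4 : ∀ᶠ y : ℕ in atTop, (y : ℝ) * (9 / 10 : ℝ) ^ y < ε / 32 :=
    (tendsto_self_mul_const_pow_of_lt_one (show (0 : ℝ) ≤ 9 / 10 by norm_num)
      (by norm_num)).eventually (gt_mem_nhds (show 0 < ε / 32 by positivity))
  have hall : ∀ᶠ y : ℕ in atTop, ∀ N k : ℕ, 5 ^ y ≤ N → 1 ≤ k →
      (k : ℝ) ≤ 2 * Real.log (Real.log y) + 2 → ∀ φ : (Fin k → ℕ) → ℝ, Bd φ →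
      |emp y N φ - J (cap ⌊Real.log (Real.log y) ^ 3⌋₊ ⌊Real.sqrt (Real.log (Real.log y)) / 2⌋₊)
        (prs 0 ⌊Real.log (Real.log y) ^ 3⌋₊ ∪ prs ⌊Real.log (Real.log y) ^ 3⌋₊ y) φ| ≤ ε ∧
      |prd y N φ - I (cap ⌊Real.log (Real.log y) ^ 3⌋₊ ⌊Real.sqrt (Real.log (Real.log y)) / 2⌋₊)
        (prs 0 ⌊Real.log (Real.log y) ^ 3⌋₊ ∪ prs ⌊Real.log (Real.log y) ^ 3⌋₊ y) φ| ≤ ε := by
    filter_upwards [e1, e3, e4, ev_mod, lim_ll.eventually_ge_atTop (max 4 (64 / ε))] with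
      y f1 f3 f4 f5 f6 N k hN hk hkl φ hφ
    obtain ⟨l, hl⟩ : ∃ l, l = Real.log (Real.log y) := ⟨_, rfl⟩
    rw [← hl] at f1 f5 f6 hkl ⊢
    obtain ⟨L, hLL⟩ : ∃ L, L = ⌊Real.sqrt l / 2⌋₊ := ⟨_, rfl⟩
    obtain ⟨M, hMM⟩ : ∃ M, M = ⌊l ^ 3⌋₊ := ⟨_, rfl⟩
    rw [← hLL] at f1 f5 ⊢
    rw [← hMM] at f5 ⊢
    have hl4 : 4 ≤ l := (le_max_left _ _).trans f6
    have hlε : 64 / ε ≤ l := (le_max_right _ _).trans f6
    have hM2 : (M : ℝ) ≤ l ^ 3 := by
      rw [hMM]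
      exact Nat.floor_le (by positivity)
    have hM3 : l ^ 3 < M + 1 := by
      rw [hMM]
      exact Nat.lt_floor_add_one _
    have hl3 : (1 : ℝ) ≤ l ^ 3 := one_le_pow₀ (by linarith)
    have hM1 : 1 ≤ M := by
      rw [hMM]
      exact Nat.le_floor (by exact_mod_cast hl3)
    have hM1' : (1 : ℝ) ≤ M := by exact_mod_cast hM1
    have hL1 : 1 ≤ L := by
      rw [hLL]
      refine Nat.le_floor ?_
      have h1 : (2 : ℝ) ≤ Real.sqrt l := by
        rw [Real.le_sqrt' (by norm_num)]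
        linarith
      push_cast
      linarith
    have hl7 : l ≤ l ^ 7 := le_self_pow₀ (by linarith) (by norm_num)
    have hl37 : l ^ 3 ≤ l ^ 7 := pow_le_pow_right₀ (by linarith) (by norm_num)
    have hMy : M ≤ y := by
      have h1 : (M : ℝ) ≤ y := hM2.trans (hl37.trans f5.2)
      exact_mod_cast h1
    have hly : l ≤ y := hl7.trans f5.2
    have hN1 : 1 ≤ N := le_trans (Nat.one_le_pow _ _ (by norm_num)) hN
    have hN' : (5 : ℝ) ^ y ≤ N := by exact_mod_cast hN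
    have hN0 : (0 : ℝ) < N := by exact_mod_cast hN1
    obtain ⟨g1, g2⟩ := hINT y M L N k hN1 hL1 hM1 hMy hk φ hφ
    have hmo : (Mo (cap M L) (prs 0 M ∪ prs M y) : ℝ) ≤ (M : ℝ) ^ (L * M) * 4 ^ y := by
      exact_mod_cast hMO y M L hM1 hMy
    obtain ⟨W, hW⟩ : ∃ W : ℝ, W = (Mo (cap M L) (prs 0 M ∪ prs M y) : ℝ) := ⟨_, rfl⟩
    rw [← hW] at g1 g2 hmo
    have hW0 : 0 ≤ W := by
      rw [hW]
      exact Nat.cast_nonneg _
    have hk0 : (1 : ℝ) ≤ k := by exact_mod_cast hk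
    have hk4 : (k : ℝ) ≤ 4 * l := by linarith
    -- the four errors
    have r1 : 4 * l * (4 / (2 : ℝ) ^ L) ≤ ε / 4 := by
      have h1 : Real.sqrt l / 2 < L + 1 := by
        rw [hLL]
        exact Nat.lt_floor_add_one _
      have h2 : l ≤ 4 * ((L : ℝ) + 1) ^ 2 := by
        have h3 := Real.sq_sqrt (show 0 ≤ l by linarith)
        have h4 := Real.sqrt_nonneg l
        nlinarith
      push_cast at f1
      rw [pow_succ (2 : ℝ) L, div_lt_iff₀ (by positivity)] at f1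
      rw [← mul_div_assoc, div_le_iff₀ (by positivity)]
      nlinarith
    have r2 : 4 * l * (2 / (M : ℝ)) ≤ ε / 4 := by
      rw [← mul_div_assoc, div_le_iff₀ (by linarith)]
      rw [div_le_iff₀ hε] at hlε
      have h1 : l ^ 3 ≤ 2 * M := by linarith
      have h2 : 64 * l ≤ ε * l ^ 3 := by
        have h3 : 64 * l ≤ l * ε * l := by nlinarith
        have h4 : l * ε * l * 1 ≤ l * ε * l * l := by
          refine mul_le_mul_of_nonneg_left (by linarith) (by positivity)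
        nlinarith
      nlinarith
    have r3 : 4 * l * (2 * ((y : ℝ) / N)) ≤ ε / 4 := by
      have h1 : (y : ℝ) / N ≤ y / 5 ^ y := by gcongr
      have h2 : l * ((y : ℝ) / N) ≤ y * (y / 5 ^ y) := by
        have : 0 ≤ (y : ℝ) / N := by positivity
        gcongr
      have h3 : (y : ℝ) * (y / 5 ^ y) = (y : ℝ) ^ 2 / 5 ^ y := by ring
      rw [h3] at h2
      linarith
    have r4 : 4 * l * (2 * W / N) ≤ ε / 4 := by
      have h1 : W / N ≤ (9 / 10 : ℝ) ^ y := by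
        calc W / N ≤ ((M : ℝ) ^ (L * M) * 4 ^ y) / 5 ^ y := by gcongr
          _ ≤ ((9 / 8 : ℝ) ^ y * 4 ^ y) / 5 ^ y := by
            gcongr
            exact f5.1
          _ = (9 / 10 : ℝ) ^ y := by
            rw [← mul_pow, ← div_pow]
            norm_num
      have h2 : l * (W / N) ≤ y * (9 / 10 : ℝ) ^ y := by
        have : 0 ≤ W / N := by positivity
        gcongr
      have h3 : 2 * W / N = 2 * (W / N) := by ring
      rw [h3]
      linarith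
    have hE0 : 0 ≤ 2 / (2 : ℝ) ^ L + 1 / M + (y : ℝ) / N := by positivity
    have hE1 : 0 ≤ 2 * W / N := by positivity
    have hmain : (k : ℝ) * (2 * (2 / (2 : ℝ) ^ L + 1 / M + (y : ℝ) / N) + 2 * W / N) ≤ ε := by
      calc (k : ℝ) * (2 * (2 / (2 : ℝ) ^ L + 1 / M + (y : ℝ) / N) + 2 * W / N)
          ≤ 4 * l * (2 * (2 / (2 : ℝ) ^ L + 1 / M + (y : ℝ) / N) + 2 * W / N) := by
            gcongr
        _ = 4 * l * (4 / (2 : ℝ) ^ L) + 4 * l * (2 / (M : ℝ)) + 4 * l * (2 * ((y : ℝ) / N)) +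
            4 * l * (2 * W / N) := by ring
        _ ≤ ε := by linarith
    constructor
    · refine g1.trans (le_trans ?_ hmain)
      have h1 : 2 * W / N ≤ k * (2 * W / N) := le_mul_of_one_le_left hE1 hk0
      linarith
    · exact g2.trans hmain
  obtain ⟨A, hA⟩ := eventually_atTop.1 hall
  exact ⟨A, fun y N k hy => hA y hy N k⟩

end Pool.Agent.H22.OM
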