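import Pool.Agent.H19.OM.Stm3

set_option autoImplicit false

/-! K6: independent coordinates from one coordinate, telescoping (helper22). -/

namespace Pool.Agent.H22.OM

open Finset Pool.Agent.H19.OM

/-- the mean over `k` independent variables -/
noncomputable def mn (A : Finset ℕ) (f : ℕ → ℕ) (k : ℕ) (φ : (Fin k → ℕ) → ℝ) : ℝ :=
  (∑ m ∈ Fintype.piFinset (fun _ : Fin k => A), φ (fun i => f (m i))) / (A.card : ℝ) ^ k

theorem sum_succ (A : Finset ℕ) (k : ℕ) (F : (Fin (k + 1) → ℕ) → ℝ) :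
    ∑ m ∈ Fintype.piFinset (fun _ : Fin (k + 1) => A), F m =
      ∑ a ∈ A, ∑ m ∈ Fintype.piFinset (fun _ : Fin k => A), F (Fin.cons a m) := by
  rw [← Finset.sum_product']
  refine Finset.sum_nbij' (fun m => (m 0, Fin.tail m)) (fun p => Fin.cons p.1 p.2) ?_ ?_ ?_ ?_ ?_
  · intro m hm
    rw [Fintype.mem_piFinset] at hm
    rw [Finset.mem_product, Fintype.mem_piFinset]
    exact ⟨hm 0, fun i => hm i.succ⟩
  · intro p hp
    rw [Finset.mem_product, Fintype.mem_piFinset] at hp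
    rw [Fintype.mem_piFinset]
    intro i
    refine Fin.cases ?_ (fun j => ?_) i
    · simpa using hp.1
    · simpa using hp.2 j
  · intro m _
    exact Fin.cons_self_tail m
  · intro p _
    simp
  · intro m _
    simp [Fin.cons_self_tail]

theorem mn_succ (A : Finset ℕ) (f : ℕ → ℕ) (k : ℕ) (φ : (Fin (k + 1) → ℕ) → ℝ) :
    mn A f (k + 1) φ = (∑ a ∈ A, mn A f k (fun z => φ (Fin.cons (f a) z))) / (A.card : ℝ) := by
  unfold mn
  rw [sum_succ, ← Finset.sum_div, div_div, pow_succ]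
  congr 1
  refine Finset.sum_congr rfl fun a _ => Finset.sum_congr rfl fun m _ => ?_
  congr 1
  funext i
  refine Fin.cases ?_ (fun j => ?_) i
  · simp
  · simp

theorem mn_le (A : Finset ℕ) (hA : A.Nonempty) (f : ℕ → ℕ) (k : ℕ) (φ : (Fin k → ℕ) → ℝ)
    (hφ : ∀ z, |φ z| ≤ 1) : |mn A f k φ| ≤ 1 := by
  have hc : (0 : ℝ) < A.card := by exact_mod_cast hA.card_pos
  unfold mn
  rw [abs_div, abs_of_pos (pow_pos hc k), div_le_one (pow_pos hc k)]
  refine (Finset.abs_sum_le_sum_abs _ _).trans ?_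
  refine (Finset.sum_le_card_nsmul _ _ 1 fun m _ => hφ _).trans ?_
  rw [Fintype.card_piFinset, Finset.prod_const, Finset.card_univ, Fintype.card_fin, nsmul_eq_mul,
    mul_one]
  push_cast
  exact le_rfl

theorem tele (A B : Finset ℕ) (hA : A.Nonempty) (hB : B.Nonempty) (f g : ℕ → ℕ) (ε : ℝ)
    (h : ∀ φ : (Fin 1 → ℕ) → ℝ, (∀ z, |φ z| ≤ 1) → |mn A f 1 φ - mn B g 1 φ| ≤ ε) (k : ℕ) :
    ∀ φ : (Fin k → ℕ) → ℝ, (∀ z, |φ z| ≤ 1) → |mn A f k φ - mn B g k φ| ≤ k * ε := by
  have hc : (0 : ℝ) < A.card := by exact_mod_cast hA.card_pos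
  induction k with
  | zero =>
    intro φ _
    have e : ∀ z z' : Fin 0 → ℕ, φ z = φ z' := fun z z' => congrArg φ (Subsingleton.elim _ _)
    have e1 : mn A f 0 φ = mn B g 0 φ := by
      unfold mn
      rw [pow_zero, pow_zero, div_one, div_one]
      rw [Fintype.piFinset_of_isEmpty, Fintype.piFinset_of_isEmpty]
      exact Finset.sum_congr rfl fun m _ => e _ _
    rw [e1, sub_self, abs_zero]
    simp
  | succ k ih =>
    intro φ hφ
    have h1 : |mn A f (k + 1) φ -
        (∑ a ∈ A, mn B g k (fun z => φ (Fin.cons (f a) z))) / (A.card : ℝ)| ≤ k * ε := by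
      rw [mn_succ, ← sub_div, ← Finset.sum_sub_distrib, abs_div, abs_of_pos hc, div_le_iff₀ hc]
      refine (Finset.abs_sum_le_sum_abs _ _).trans ?_
      refine (Finset.sum_le_card_nsmul _ _ (k * ε) fun a _ =>
        ih (fun z => φ (Fin.cons (f a) z)) (fun z => hφ _)).trans ?_
      rw [nsmul_eq_mul, mul_comm]
    have h2 := h (fun t => mn B g k (fun z => φ (Fin.cons (t 0) z)))
      (fun t => mn_le B hB g k _ (fun z => hφ _))
    have e2 : ∀ (C : Finset ℕ) (u : ℕ → ℕ),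
        mn C u 1 (fun t => mn B g k (fun z => φ (Fin.cons (t 0) z))) =
        (∑ a ∈ C, mn B g k (fun z => φ (Fin.cons (u a) z))) / (C.card : ℝ) := by
      intro C u
      rw [mn_succ C u 0]
      congr 1
      refine Finset.sum_congr rfl fun a _ => ?_
      unfold mn
      rw [pow_zero, div_one, Fintype.piFinset_of_isEmpty]
      simp
    rw [e2, e2, ← mn_succ B g k φ] at h2
    have h3 := abs_sub_le (mn A f (k + 1) φ)
      ((∑ a ∈ A, mn B g k (fun z => φ (Fin.cons (f a) z))) / (A.card : ℝ)) (mn B g (k + 1) φ)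
    push_cast
    linarith

/-- **K6** -/
theorem k6 : S_K6 := by
  intro y N L S ε hN hS h k φ hφ
  have hMo : 1 ≤ Mo L S := by
    unfold Mo
    exact Nat.one_le_iff_ne_zero.2 (Finset.prod_ne_zero_iff.2 fun p hp => pow_ne_zero _ (hS p hp).ne_zero)
  have hA : (Icc 1 N).Nonempty := ⟨1, Finset.mem_Icc.2 ⟨le_rfl, hN⟩⟩
  have hB : (range (Mo L S)).Nonempty := ⟨0, Finset.mem_range.2 (by omega)⟩
  have e1 : ∀ (k : ℕ) (φ : (Fin k → ℕ) → ℝ), prd y N φ = mn (Icc 1 N) (Om y) k φ := by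
    intro k φ
    unfold prd mn
    rw [Nat.card_Icc, Nat.add_sub_cancel]
  have e2 : ∀ (k : ℕ) (φ : (Fin k → ℕ) → ℝ),
      I L S φ = mn (range (Mo L S)) (fun n => ∑ p ∈ S, val p (L p) n) k φ := by
    intro k φ
    unfold I mn
    rw [Finset.card_range]
  rw [e1, e2]
  refine tele _ _ hA hB _ _ ε (fun ψ hψ => ?_) k φ hφ
  have h1 := h ψ hψ
  have e3 : emp y N ψ = mn (Icc 1 N) (Om y) 1 ψ := by
    unfold emp mn
    rw [sum_succ, Nat.card_Icc, Nat.add_sub_cancel, pow_one]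
    congr 1
    refine Finset.sum_congr rfl fun n _ => ?_
    rw [Fintype.piFinset_of_isEmpty, Finset.univ_unique, Finset.sum_singleton]
    congr 1
    funext i
    rw [Subsingleton.elim i 0]
    simp
  have e4 : J L S ψ = mn (range (Mo L S)) (fun n => ∑ p ∈ S, val p (L p) n) 1 ψ := by
    unfold J mn
    rw [sum_succ, Finset.card_range, pow_one]
    congr 1
    refine Finset.sum_congr rfl fun n _ => ?_
    rw [Fintype.piFinset_of_isEmpty, Finset.univ_unique, Finset.sum_singleton]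
    congr 1
    funext i
    rw [Subsingleton.elim i 0]
    simp
  rw [← e3, ← e4]
  exact h1

/-- **K6** -/
theorem t_K6 : S_K6 := k6

end Pool.Agent.H22.OM
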